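import Mathlib

namespace Pool.Agent.Results.MP_cb32b9_nt.NotContained

/-- the set `Bose_2(q, 1)` in `ℤ / M`, `M = q ^ 2 - 1` -/
def Bose (F : Type) {K : Type} [Field F] [Field K] [Algebra F K] (M : ℕ) (θ : K) : Set (ZMod M) :=
  {a | ∃ v : F, θ ^ a.val = θ + algebraMap F K v}

def p {K : Type} [Field K] (t : K) : ℕ → K
  | 0 => 0
  | 1 => 1
  | j + 2 => t * p t (j + 1) - (t ^ 2 + t + 1) * p t j

lemma p_eq {K : Type} [Field K] {g h : K} (hn : g * h = (g + h) ^ 2 + (g + h) + 1) :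
    ∀ j, h ^ j - g ^ j = (h - g) * p (g + h) j
  | 0 => by simp [p]
  | 1 => by simp [p]
  | j + 2 => by
    rw [p, ← hn]
    linear_combination (g + h) * p_eq hn (j + 1) - g * h * p_eq hn j

lemma no_root {K : Type} [Field K] (t : K) (h10 : ∑ j ∈ Finset.range 10, p t j = 0)
    (h18 : ∑ j ∈ Finset.range 25, p t j = 0) (h23 : ∑ j ∈ Finset.range 23, p t j = 0) : False := by
  have p0 : p t 0 = 0 := rfl
  have p1 : p t 1 = 1 := rfl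
  have p2 : p t 2 = ((1) * t ^ 1) := by
    rw [p, p1, p0]; ring
  have p3 : p t 3 = ((-1) * t ^ 0 + (-1) * t ^ 1) := by
    rw [p, p2, p1]; ring
  have p4 : p t 4 = ((-2) * t ^ 1 + (-2) * t ^ 2 + (-1) * t ^ 3) := by
    rw [p, p3, p2]; ring
  have p5 : p t 5 = ((1) * t ^ 0 + (2) * t ^ 1 + (-1) * t ^ 3 + (-1) * t ^ 4) := by
    rw [p, p4, p3]; ring
  have p6 : p t 6 = ((3) * t ^ 1 + (6) * t ^ 2 + (5) * t ^ 3 + (2) * t ^ 4) := by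
    rw [p, p5, p4]; ring
  have p7 : p t 7 = ((-1) * t ^ 0 + (-3) * t ^ 1 + (5) * t ^ 3 + (7) * t ^ 4 + (4) * t ^ 5 + (1) * t ^ 6) := by
    rw [p, p6, p5]; ring
  have p8 : p t 8 = ((-4) * t ^ 1 + (-12) * t ^ 2 + (-14) * t ^ 3 + (-8) * t ^ 4 + (2) * t ^ 6 + (1) * t ^ 7) := by
    rw [p, p7, p6]; ring
  have p9 : p t 9 = ((1) * t ^ 0 + (4) * t ^ 1 + (-14) * t ^ 3 + (-26) * t ^ 4 + (-24) * t ^ 5 + (-12) * t ^ 6 + (-3) * t ^ 7) := by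
    rw [p, p8, p7]; ring
  have p10 : p t 10 = ((5) * t ^ 1 + (20) * t ^ 2 + (30) * t ^ 3 + (20) * t ^ 4 + (-4) * t ^ 5 + (-18) * t ^ 6 + (-15) * t ^ 7 + (-6) * t ^ 8 + (-1) * t ^ 9) := by
    rw [p, p9, p8]; ring
  have p11 : p t 11 = ((-1) * t ^ 0 + (-5) * t ^ 1 + (30) * t ^ 3 + (70) * t ^ 4 + (84) * t ^ 5 + (58) * t ^ 6 + (21) * t ^ 7 + (-3) * t ^ 9 + (-1) * t ^ 10) := by
    rw [p, p10, p9]; ring
  have p12 : p t 12 = ((-6) * t ^ 1 + (-30) * t ^ 2 + (-55) * t ^ 3 + (-40) * t ^ 4 + (24) * t ^ 5 + (86) * t ^ 6 + (95) * t ^ 7 + (60) * t ^ 8 + (22) * t ^ 9 + (4) * t ^ 10) := by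
    rw [p, p11, p10]; ring
  have p13 : p t 13 = ((1) * t ^ 0 + (6) * t ^ 1 + (-55) * t ^ 3 + (-155) * t ^ 4 + (-224) * t ^ 5 + (-188) * t ^ 6 + (-77) * t ^ 7 + (16) * t ^ 8 + (42) * t ^ 9 + (26) * t ^ 10 + (8) * t ^ 11 + (1) * t ^ 12) := by
    rw [p, p12, p11]; ring
  have p14 : p t 14 = ((7) * t ^ 1 + (42) * t ^ 2 + (91) * t ^ 3 + (70) * t ^ 4 + (-84) * t ^ 5 + (-294) * t ^ 6 + (-393) * t ^ 7 + (-318) * t ^ 8 + (-161) * t ^ 9 + (-44) * t ^ 10 + (4) * t ^ 12 + (1) * t ^ 13) := by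
    rw [p, p13, p12]; ring
  have p15 : p t 15 = ((-1) * t ^ 0 + (-7) * t ^ 1 + (91) * t ^ 3 + (301) * t ^ 4 + (504) * t ^ 5 + (483) * t ^ 6 + (195) * t ^ 7 + (-144) * t ^ 8 + (-299) * t ^ 9 + (-245) * t ^ 10 + (-120) * t ^ 11 + (-35) * t ^ 12 + (-5) * t ^ 13) := by
    rw [p, p14, p13]; ring
  have p16 : p t 16 = ((-8) * t ^ 1 + (-56) * t ^ 2 + (-140) * t ^ 3 + (-112) * t ^ 4 + (224) * t ^ 5 + (812) * t ^ 6 + (1254) * t ^ 7 + (1200) * t ^ 8 + (728) * t ^ 9 + (224) * t ^ 10 + (-40) * t ^ 11 + (-80) * t ^ 12 + (-40) * t ^ 13 + (-10) * t ^ 14 + (-1) * t ^ 15) := by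
    rw [p, p15, p14]; ring
  have p17 : p t 17 = ((1) * t ^ 0 + (8) * t ^ 1 + (-140) * t ^ 3 + (-532) * t ^ 4 + (-1008) * t ^ 5 + (-1064) * t ^ 6 + (-370) * t ^ 7 + (720) * t ^ 8 + (1448) * t ^ 9 + (1416) * t ^ 10 + (888) * t ^ 11 + (360) * t ^ 12 + (80) * t ^ 13 + (-5) * t ^ 15 + (-1) * t ^ 16) := by
    rw [p, p16, p15]; ring
  have p18 : p t 18 = ((9) * t ^ 1 + (72) * t ^ 2 + (204) * t ^ 3 + (168) * t ^ 4 + (-504) * t ^ 5 + (-1932) * t ^ 6 + (-3354) * t ^ 7 + (-3636) * t ^ 8 + (-2462) * t ^ 9 + (-704) * t ^ 10 + (504) * t ^ 11 + (784) * t ^ 12 + (520) * t ^ 13 + (210) * t ^ 14 + (51) * t ^ 15 + (6) * t ^ 16) := by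
    rw [p, p17, p16]; ring
  have p19 : p t 19 = ((-1) * t ^ 0 + (-9) * t ^ 1 + (204) * t ^ 3 + (876) * t ^ 4 + (1848) * t ^ 5 + (2100) * t ^ 6 + (510) * t ^ 7 + (-2640) * t ^ 8 + (-5434) * t ^ 9 + (-6046) * t ^ 10 + (-4456) * t ^ 11 + (-2160) * t ^ 12 + (-544) * t ^ 13 + (80) * t ^ 14 + (135) * t ^ 15 + (57) * t ^ 16 + (12) * t ^ 17 + (1) * t ^ 18) := by
    rw [p, p18, p17]; ring
  have p20 : p t 20 = ((-10) * t ^ 1 + (-90) * t ^ 2 + (-285) * t ^ 3 + (-240) * t ^ 4 + (1008) * t ^ 5 + (4116) * t ^ 6 + (7890) * t ^ 7 + (9432) * t ^ 8 + (6812) * t ^ 9 + (1368) * t ^ 10 + (-3384) * t ^ 11 + (-5040) * t ^ 12 + (-3968) * t ^ 13 + (-2058) * t ^ 14 + (-701) * t ^ 15 + (-132) * t ^ 16 + (6) * t ^ 18 + (1) * t ^ 19) := by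
    rw [p, p19, p18]; ring
  have p21 : p t 21 = ((1) * t ^ 0 + (10) * t ^ 1 + (-285) * t ^ 3 + (-1365) * t ^ 4 + (-3168) * t ^ 5 + (-3816) * t ^ 6 + (-342) * t ^ 7 + (7920) * t ^ 8 + (16996) * t ^ 9 + (20932) * t ^ 10 + (17304) * t ^ 11 + (9278) * t ^ 12 + (2120) * t ^ 13 + (-1344) * t ^ 14 + (-1729) * t ^ 15 + (-973) * t ^ 16 + (-336) * t ^ 17 + (-70) * t ^ 18 + (-7) * t ^ 19) := by
    rw [p, p20, p19]; ring
  have p22 : p t 22 = ((11) * t ^ 1 + (110) * t ^ 2 + (385) * t ^ 3 + (330) * t ^ 4 + (-1848) * t ^ 5 + (-8052) * t ^ 6 + (-16830) * t ^ 7 + (-21780) * t ^ 8 + (-16214) * t ^ 9 + (-616) * t ^ 10 + (16136) * t ^ 11 + (24360) * t ^ 12 + (21670) * t ^ 13 + (13186) * t ^ 14 + (5383) * t ^ 15 + (1162) * t ^ 16 + (-140) * t ^ 17 + (-210) * t ^ 18 + (-77) * t ^ 19 + (-14) * t ^ 20 + (-1) * t ^ 21) := by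
    rw [p, p21, p20]; ring
  have p23 : p t 23 = ((-1) * t ^ 0 + (-11) * t ^ 1 + (385) * t ^ 3 + (2035) * t ^ 4 + (5148) * t ^ 5 + (6501) * t ^ 6 + (-726) * t ^ 7 + (-20592) * t ^ 8 + (-46354) * t ^ 9 + (-62062) * t ^ 10 + (-55848) * t ^ 11 + (-31378) * t ^ 12 + (-4342) * t ^ 13 + (11616) * t ^ 14 + (14139) * t ^ 15 + (9429) * t ^ 16 + (4200) * t ^ 17 + (1239) * t ^ 18 + (203) * t ^ 19 + (-7) * t ^ 21 + (-1) * t ^ 22) := by
    rw [p, p22, p21]; ring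
  have p24 : p t 24 = ((-12) * t ^ 1 + (-132) * t ^ 2 + (-506) * t ^ 3 + (-440) * t ^ 4 + (3168) * t ^ 5 + (14718) * t ^ 6 + (33231) * t ^ 7 + (45936) * t ^ 8 + (34232) * t ^ 9 + (-7744) * t ^ 10 + (-61368) * t ^ 11 + (-95728) * t ^ 12 + (-93544) * t ^ 13 + (-63558) * t ^ 14 + (-28623) * t ^ 15 + (-5592) * t ^ 16 + (3024) * t ^ 17 + (3388) * t ^ 18 + (1666) * t ^ 19 + (504) * t ^ 20 + (92) * t ^ 21 + (8) * t ^ 22) := by
    rw [p, p23, p22]; ring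
  simp only [Finset.sum_range_succ, Finset.sum_range_zero, p0, p1, p2, p3, p4, p5, p6, p7, p8, p9, p10, p11, p12, p13, p14, p15, p16, p17, p18, p19, p20, p21, p22, p23, p24] at h10 h18 h23
  have h : (13 : K) ^ 1 = 0 := by
    linear_combination ((51) * t ^ 0 + (456) * t ^ 1 + (2846) * t ^ 2 + (5605) * t ^ 3 + (-11317) * t ^ 4 + (-85316) * t ^ 5 + (-213442) * t ^ 6 + (-291693) * t ^ 7 + (-174350) * t ^ 8 + (153009) * t ^ 9 + (503787) * t ^ 10 + (648904) * t ^ 11 + (532332) * t ^ 12 + (291423) * t ^ 13 + (93762) * t ^ 14 + (2587) * t ^ 15 + (-14505) * t ^ 16 + (-7870) * t ^ 17 + (-2095) * t ^ 18 + (-278) * t ^ 19 + (-14) * t ^ 20) * h10 +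
      ((-38) * t ^ 0 + (-38) * t ^ 1 + (260) * t ^ 2 + (573) * t ^ 3 + (588) * t ^ 4 + (290) * t ^ 5 + (28) * t ^ 6) * h23
  have h13 : (13 : K) = 0 := pow_eq_zero_iff (by norm_num) |>.1 h
  have : (1 : K) = 0 := by
    linear_combination ((5) * t ^ 0 + (3) * t ^ 1 + (2) * t ^ 2 + (2) * t ^ 4 + (2) * t ^ 5 + (4) * t ^ 6 + (6) * t ^ 7 + (9) * t ^ 8 + (3) * t ^ 9 + (6) * t ^ 10 + (11) * t ^ 11 + (11) * t ^ 12 + (10) * t ^ 13 + (2) * t ^ 14 + (3) * t ^ 15 + (4) * t ^ 16 + (11) * t ^ 17 + (12) * t ^ 18 + (9) * t ^ 19 + (7) * t ^ 20 + (5) * t ^ 21 + (9) * t ^ 22 + (3) * t ^ 23 + (4) * t ^ 24 + (7) * t ^ 25 + (2) * t ^ 26 + (10) * t ^ 27 + (6) * t ^ 28 + (1) * t ^ 29 + (3) * t ^ 31 + (3) * t ^ 32 + (11) * t ^ 33 + (2) * t ^ 34 + (9) * t ^ 35 + (11) * t ^ 36 + (4) * t ^ 37 + (4) * t ^ 38) * h10 +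
      ((9) * t ^ 0 + (7) * t ^ 1 + (4) * t ^ 2 + (9) * t ^ 3 + (10) * t ^ 4 + (9) * t ^ 5 + (2) * t ^ 6 + (5) * t ^ 7 + (12) * t ^ 8 + (4) * t ^ 9 + (2) * t ^ 10 + (4) * t ^ 11 + (5) * t ^ 12 + (7) * t ^ 13 + (12) * t ^ 14 + (10) * t ^ 15 + (5) * t ^ 16 + (11) * t ^ 17 + (10) * t ^ 18 + (7) * t ^ 19 + (4) * t ^ 20 + (6) * t ^ 21 + (3) * t ^ 22 + (3) * t ^ 23 + (5) * t ^ 24) * h23 +
      ((8) * t ^ 0 + (6) * t ^ 1 + (12) * t ^ 2) * h18 -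
      ((1) * t ^ 0 + (1) * t ^ 1 + (-5) * t ^ 2 + (-20) * t ^ 3 + (95) * t ^ 4 + (1066) * t ^ 5 + (4405) * t ^ 6 + (10561) * t ^ 7 + (14629) * t ^ 8 + (4746) * t ^ 9 + (-29723) * t ^ 10 + (-83488) * t ^ 11 + (-130854) * t ^ 12 + (-142436) * t ^ 13 + (-109514) * t ^ 14 + (-50604) * t ^ 15 + (5571) * t ^ 16 + (40760) * t ^ 17 + (52608) * t ^ 18 + (47368) * t ^ 19 + (33280) * t ^ 20 + (19110) * t ^ 21 + (12672) * t ^ 22 + (16983) * t ^ 23 + (28616) * t ^ 24 + (41387) * t ^ 25 + (51437) * t ^ 26 + (58218) * t ^ 27 + (61795) * t ^ 28 + (61273) * t ^ 29 + (56317) * t ^ 30 + (48831) * t ^ 31 + (41844) * t ^ 32 + (36745) * t ^ 33 + (32249) * t ^ 34 + (26263) * t ^ 35 + (18384) * t ^ 36 + (10326) * t ^ 37 + (4223) * t ^ 38 + (917) * t ^ 39 + (-215) * t ^ 40 + (-305) * t ^ 41 + (-151) * t ^ 42 + (-46) * t ^ 43 + (-9) * t ^ 44 + (-1) * t ^ 45) * h13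
  exact one_ne_zero this

theorem result (F K : Type) [Field F] [Field K] [Algebra F K] [Finite F] (q : ℕ)
    (hF : Nat.card F = q) (hK : Nat.card K = q ^ 2) (θ : K) (hθ : IsPrimitiveRoot θ (q ^ 2 - 1))
    (m : ℤ) (s : ZMod (q ^ 2 - 1)) :
    ¬ ∀ k ∈ ({0, 1, 4, 10, 18, 23, 25} : Set ℕ), (k : ZMod (q ^ 2 - 1)) ∈
      (fun a => (m : ZMod (q ^ 2 - 1)) * a + s) '' Bose F (q ^ 2 - 1) θ := by
  intro H
  haveI := Fintype.ofFinite F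
  have hq : 1 < q := by rw [← hF]; exact Finite.one_lt_card
  have hM : q - 1 < q ^ 2 - 1 := by
    have : q < q ^ 2 := by nlinarith
    omega
  haveI : NeZero (q ^ 2 - 1) := ⟨by omega⟩
  have h0 : θ ≠ 0 := hθ.ne_zero (by omega)
  have pw : ∀ a b : ℕ, θ ^ a = θ ^ b ↔ (a : ZMod (q ^ 2 - 1)) = b := fun a b => by
    have h1 := hθ.eq_orderOf
    rw [ZMod.natCast_eq_natCast_iff', ← pow_mod_orderOf θ a, ← pow_mod_orderOf θ b, ← h1]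
    exact ⟨fun h2 => hθ.pow_inj (Nat.mod_lt _ (by omega)) (Nat.mod_lt _ (by omega)) h2,
      fun h2 => by rw [h2]⟩
  obtain ⟨a0, ⟨v0, b0⟩, e0⟩ := H 0 (by simp)
  obtain ⟨a1, ⟨v1, b1⟩, e1⟩ := H 1 (by simp)
  simp only [Nat.cast_zero, Nat.cast_one] at e0 e1
  have hu : (m : ZMod (q ^ 2 - 1)) * (a1 - a0) = 1 := by linear_combination e1 - e0
  set g := θ ^ (a1 - a0).val with hg
  set y := θ ^ a0.val with hy
  let φ := FiniteField.frobeniusAlgHom F K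
  have hφ : ∀ x, φ x = x ^ q := fun x => by
    rw [← hF, Nat.card_eq_fintype_card]; rfl
  have key : ∀ k ∈ ({0, 1, 4, 10, 18, 23, 25} : Set ℕ),
      φ y * (φ g ^ k - 1) = y * (g ^ k - 1) := fun k hk => by
    obtain ⟨a, ⟨v, b⟩, e⟩ := H k hk
    simp only at e
    have h1 : y * g ^ k = θ ^ a.val := by
      rw [hy, hg, ← pow_mul, ← pow_add, pw]
      push_cast
      simp only [ZMod.natCast_val, ZMod.cast_id', id]
      linear_combination (a1 - a0) * (e0 - e) + (a - a0) * hu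
    have h2 : y * (g ^ k - 1) = algebraMap F K (v - v0) := by
      rw [mul_sub, h1, b, mul_one, b0, map_sub]; ring
    have h3 := φ.commutes (v - v0)
    rw [← h2] at h3
    simpa using h3
  have gh : φ g - g ≠ 0 := fun h => by
    rw [hφ, sub_eq_zero, hg, ← pow_mul, pw] at h
    push_cast at h
    simp only [ZMod.natCast_val, ZMod.cast_id', id] at h
    have h1 : ((q - 1 : ℕ) : ZMod (q ^ 2 - 1)) = 0 := by
      rw [Nat.cast_sub hq.le]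
      push_cast
      linear_combination m * h - (q - 1) * hu
    rw [ZMod.natCast_eq_zero_iff] at h1
    have := Nat.le_of_dvd (by omega) h1
    omega
  have g1 : g - 1 ≠ 0 := fun h => gh (by rw [sub_eq_zero.1 h]; simp)
  have g2 : φ g - 1 ≠ 0 := fun h => g1 (φ.injective (by simpa using h))
  have y0 : y ≠ 0 := pow_ne_zero _ h0
  have y1 : φ y ≠ 0 := by simpa using y0
  have k1 := key 1 (by simp)
  have key2 : ∀ k ∈ ({0, 1, 4, 10, 18, 23, 25} : Set ℕ),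
      ∑ j ∈ Finset.range k, (φ g ^ j - g ^ j) = 0 := fun k hk => by
    have h1 := key k hk
    rw [← mul_geom_sum, ← mul_geom_sum] at h1
    rw [Finset.sum_sub_distrib]
    apply mul_left_cancel₀ (mul_ne_zero y0 g1)
    linear_combination h1 - (∑ j ∈ Finset.range k, φ g ^ j) * k1
  have hn : g * φ g = (g + φ g) ^ 2 + (g + φ g) + 1 := by
    have h4 := key2 4 (by simp)
    simp only [Finset.sum_range_succ, Finset.sum_range_zero] at h4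
    apply mul_left_cancel₀ gh
    linear_combination -h4
  have key3 : ∀ k ∈ ({0, 1, 4, 10, 18, 23, 25} : Set ℕ),
      ∑ j ∈ Finset.range k, p (g + φ g) j = 0 := fun k hk => by
    have h1 := key2 k hk
    simp only [p_eq hn, ← Finset.mul_sum] at h1
    exact (mul_eq_zero.1 h1).resolve_left gh
  exact no_root _ (key3 10 (by simp)) (key3 25 (by simp)) (key3 23 (by simp))

end Pool.Agent.Results.MP_cb32b9_nt.NotContained
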